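import Mathlib

set_option autoImplicit false

namespace Pool.Agent.Results.MP_5a8271_pr.NoRate

open Set Filter Topology
open scoped ENNReal Nat

/-- Upper probability function of the distribution `p`. -/
noncomputable def UPF {S : Type} [PartialOrder S] (p : PMF S) (x : S) : ℝ≥0∞ := ∑' y : Ici x, p y

/-- `p` has constant rate `α`. -/
def ConstRate {S : Type} [PartialOrder S] (p : PMF S) (α : ℝ) : Prop :=
  0 < α ∧ ∀ x, 0 < UPF p x ∧ p x = ENNReal.ofReal α * UPF p x

def SS : Type := (n : ℕ) × Fin (n ! + 1)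

instance : PartialOrder SS where
  le x y := x = y ∨ (x.1 < y.1 ∧ y.2.1 = 0)
  le_refl _ := Or.inl rfl
  le_trans a b c h1 h2 := by
    rcases h1 with rfl | h1
    · exact h2
    · rcases h2 with rfl | h2
      · exact Or.inr h1
      · exact Or.inr ⟨h1.1.trans h2.1, h2.2⟩
  le_antisymm a b h1 h2 := by
    rcases h1 with rfl | h1
    · rfl
    · rcases h2 with rfl | h2
      · rfl
      · exact absurd h1.1 h2.1.asymm

def y (n : ℕ) : SS := ⟨n, 0⟩

theorem le_y {x : SS} {n : ℕ} (h : x.1 < n) : x ≤ y n := Or.inr ⟨h, rfl⟩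

theorem Ici_eq (x : SS) : Ici x = insert x (Ici (y (x.1 + 1))) := by
  ext ⟨m, j⟩
  constructor
  · rintro (h | ⟨h1, h2⟩)
    · exact Or.inl h.symm
    · rcases (Nat.succ_le_of_lt h1).eq_or_lt with h | h
      · subst h
        exact Or.inr (Or.inl (congrArg (Sigma.mk _) (Fin.ext h2).symm))
      · exact Or.inr (Or.inr ⟨h, h2⟩)
  · rintro (h | h)
    · exact h.ge
    · exact (le_y (Nat.lt_succ_self _)).trans h

theorem upf_eq (p : PMF SS) (x : SS) : UPF p x = p x + UPF p (y (x.1 + 1)) := by
  have h : x ∉ Ici (y (x.1 + 1)) := by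
    rintro (h | h)
    · exact absurd (congrArg Sigma.fst h) (Nat.succ_ne_self _)
    · exact absurd h.1 (by simp [y])
  rw [UPF, Ici_eq, UPF, ← singleton_union, ENNReal.summable.tsum_union_disjoint
    (disjoint_singleton_left.2 h) ENNReal.summable, tsum_singleton x fun z => p z]

theorem result : ∃ (S : Type) (_ : PartialOrder S), Nonempty S ∧ Countable S ∧
    (∀ x : S, (Iic x).Finite) ∧ (∀ x : S, ¬ IsMax x) ∧ ¬ ∃ (p : PMF S) (α : ℝ), ConstRate p α := by
  refine ⟨SS, inferInstance, ⟨y 0⟩, inferInstanceAs (Countable ((n : ℕ) × Fin (n ! + 1))), fun x => ?_,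
    fun x h => ?_, ?_⟩
  · refine (((Finset.range (x.1 + 1)).sigma fun _ => Finset.univ).finite_toSet).subset fun z hz => ?_
    have : z.1 < x.1 + 1 := by
      rcases hz with rfl | h
      · omega
      · omega
    simpa using this
  · rcases h (le_y (Nat.lt_succ_self _)) with h | h
    · exact absurd (congrArg Sigma.fst h) (Nat.succ_ne_self _)
    · exact absurd h.1 (by simp [y])
  · rintro ⟨p, α, hα, h⟩
    have h1 : ∀ x, UPF p x ≠ ∞ := fun x => ne_top_of_le_ne_top ENNReal.one_ne_top
      ((ENNReal.tsum_comp_le_tsum_of_injective Subtype.val_injective p).trans_eq p.tsum_coe)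
    let F : SS → ℝ := fun x => (UPF p x).toReal
    have h2 : ∀ x, 0 < F x := fun x => ENNReal.toReal_pos (h x).1.ne' (h1 x)
    have h3 : ∀ x, (p x).toReal = α * F x := fun x => by
      rw [(h x).2, ENNReal.toReal_mul, ENNReal.toReal_ofReal hα.le]
    have h4 : ∀ x, (1 - α) * F x = F (y (x.1 + 1)) := fun x => by
      have := congrArg ENNReal.toReal (upf_eq p x)
      rw [ENNReal.toReal_add (p.apply_ne_top x) (h1 _), h3] at this
      linarith
    have h5 : 0 < 1 - α := (mul_pos_iff_of_pos_right (h2 (y 0))).1 (h4 (y 0) ▸ h2 _)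
    have h6 : ∀ n, F (y n) = (1 - α) ^ n * F (y 0) := fun n => by
      induction n with
      | zero => simp
      | succ n ih => rw [pow_succ', mul_assoc, ← ih]; exact (h4 (y n)).symm
    have h7 : ∀ n : ℕ, α * F (y 0) ≤ (1 - α)⁻¹ ^ n / n ! := fun n => by
      have k1 : ∑ j : Fin (n ! + 1), p ⟨n, j⟩ ≤ 1 := by
        rw [← tsum_fintype (L := SummationFilter.unconditional _)]
        exact (ENNReal.tsum_comp_le_tsum_of_injective (f := fun j : Fin (n ! + 1) => (⟨n, j⟩ : SS))
          (fun _ _ h => sigma_mk_injective (β := fun n => Fin (n ! + 1)) h) p).trans_eq p.tsum_coe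
      have k2 := ENNReal.toReal_mono ENNReal.one_ne_top k1
      have k3 : ∀ j : Fin (n ! + 1), F ⟨n, j⟩ = (1 - α) ^ n * F (y 0) := fun j =>
        mul_left_cancel₀ h5.ne' ((h4 ⟨n, j⟩).trans ((h4 (y n)).symm.trans (by rw [h6])))
      rw [ENNReal.toReal_sum fun _ _ => p.apply_ne_top _] at k2
      simp only [h3, k3, Finset.sum_const, Finset.card_univ, Fintype.card_fin, nsmul_eq_mul,
        ENNReal.toReal_one, Nat.cast_succ] at k2
      rw [inv_pow, le_div_iff₀ (by positivity), ← one_div, le_div_iff₀ (by positivity)]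
      have := mul_pos hα (mul_pos (pow_pos h5 n) (h2 (y 0)))
      nlinarith
    exact absurd (ge_of_tendsto' (FloorSemiring.tendsto_pow_div_factorial_atTop _) h7)
      (not_le.2 (mul_pos hα (h2 _)))

end Pool.Agent.Results.MP_5a8271_pr.NoRate
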